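import Mathlib

open Matrix Polynomial

namespace Q41.Walk

/-- The walk matrix `[e, Ae, ..., A^(n-1) e]` of an integer matrix `A`. -/
def walk {n : ℕ} (A : Matrix (Fin n) (Fin n) ℤ) : Matrix (Fin n) (Fin n) ℤ :=
  Matrix.of fun i j => ((A ^ (j : ℕ)) *ᵥ 1) i

theorem walk_mulVec {n : ℕ} (A : Matrix (Fin n) (Fin n) ℤ) (η : Fin n → ℤ) :
    walk A *ᵥ η = (aeval A (Polynomial.ofFn n η)) *ᵥ 1 := by
  rw [Polynomial.ofFn_eq_sum_monomial, map_sum]
  ext i
  simp only [Matrix.mulVec, dotProduct, walk, Matrix.of_apply, Matrix.sum_apply, aeval_monomial,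
    Pi.one_apply, mul_one]
  rw [Finset.sum_comm]
  refine Finset.sum_congr rfl fun j _ => ?_
  rw [Finset.sum_mul]
  refine Finset.sum_congr rfl fun k _ => ?_
  rw [Algebra.algebraMap_eq_smul_one, Matrix.smul_mul, Matrix.one_mul, Matrix.smul_apply,
    smul_eq_mul, mul_comm]

/-- The matrix of ones. -/
def J (n : ℕ) : Matrix (Fin n) (Fin n) ℤ := Matrix.of fun _ _ => 1

theorem J_mul_mul_J {n : ℕ} (M : Matrix (Fin n) (Fin n) ℤ) :
    J n * M * J n = (∑ i, ∑ j, M i j) • J n := by
  ext i j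
  simp only [Matrix.mul_apply, J, Matrix.of_apply, one_mul, mul_one, Matrix.smul_apply,
    smul_eq_mul]
  rw [Finset.sum_comm]


theorem det_add_J {n : ℕ} (N : Matrix (Fin n) (Fin n) ℤ) (h : N.det ≠ 0) :
    (N + J n).det = N.det + ∑ i, ∑ j, N.adjugate i j := by
  have hinj : Function.Injective (Int.castRingHom ℚ) := Int.cast_injective
  apply hinj
  have hN : (N.map (Int.castRingHom ℚ)).det = Int.castRingHom ℚ N.det := by
    rw [← RingHom.mapMatrix_apply, ← RingHom.map_det]
  have hu : IsUnit (N.map (Int.castRingHom ℚ)).det := by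
    rw [hN]
    exact isUnit_iff_ne_zero.2 (by simpa using h)
  have hJ : (J n).map (Int.castRingHom ℚ) =
      replicateCol Unit (fun _ => (1 : ℚ)) * replicateRow Unit (fun _ => (1 : ℚ)) := by
    ext i j
    simp [J, Matrix.mul_apply]
  rw [RingHom.map_det, map_add, RingHom.mapMatrix_apply, RingHom.mapMatrix_apply, hJ,
    det_add_replicateCol_mul_replicateRow hu, hN, det_unique (n := Unit), map_add, map_sum]
  simp only [map_sum]
  have hadj : N.map (Int.castRingHom ℚ) = (Int.castRingHom ℚ).mapMatrix N := rfl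
  have hne : (Int.castRingHom ℚ) N.det ≠ 0 := by simpa using h
  rw [Matrix.add_apply, Matrix.one_apply_eq, Matrix.inv_def, hN, hadj, ← RingHom.map_adjugate,
    Ring.inverse_eq_inv', Matrix.mul_smul, Matrix.smul_mul, Matrix.smul_apply, smul_eq_mul,
    mul_add, mul_one, mul_inv_cancel_left₀ hne]
  congr 1
  simp only [Matrix.mul_apply, replicateRow_apply, replicateCol_apply, one_mul, mul_one,
    RingHom.mapMatrix_apply, Matrix.map_apply]
  rw [Finset.sum_comm]

theorem smul_cancel {n : ℕ} (N D : Matrix (Fin n) (Fin n) ℤ) (h : N.det ≠ 0) (h0 : N * D = 0) :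
    D = 0 := by
  have h1 : N.adjugate * (N * D) = 0 := by rw [h0, Matrix.mul_zero]
  rw [← Matrix.mul_assoc, Matrix.adjugate_mul, Matrix.smul_mul, Matrix.one_mul] at h1
  ext i j
  have h2 := congrFun (congrFun h1 i) j
  rw [Matrix.smul_apply, smul_eq_mul, Matrix.zero_apply] at h2
  exact (mul_eq_zero.1 h2).resolve_left h

theorem sherman {n : ℕ} (N : Matrix (Fin n) (Fin n) ℤ) (h : N.det ≠ 0) (h' : (N + J n).det ≠ 0) :
    (∑ i, ∑ j, N.adjugate i j) • N.adjugate - N.adjugate * J n * N.adjugate =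
      N.det • ((N + J n).adjugate - N.adjugate) := by
  set M := N.adjugate with hM
  set X := (N + J n).adjugate with hX
  set s := ∑ i, ∑ j, M i j with hs
  set δ := N.det with hδ
  have e1 : N * M = δ • 1 := Matrix.mul_adjugate N
  have e2 : (N + J n) * X = (δ + s) • 1 := by
    rw [hX, Matrix.mul_adjugate, det_add_J N h]
  have e3 : J n * M * J n = s • J n := J_mul_mul_J M
  have key : (N + J n) * (s • M - M * J n * M + δ • M - δ • X) = 0 := by
    have a1 : (N + J n) * (s • M) = s • (N * M) + s • (J n * M) := by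
      rw [Matrix.mul_smul, Matrix.add_mul, smul_add]
    have a2 : (N + J n) * (M * J n * M) = N * M * J n * M + J n * M * J n * M := by
      rw [Matrix.add_mul]
      simp only [Matrix.mul_assoc]
    have a3 : (N + J n) * (δ • M) = δ • (N * M) + δ • (J n * M) := by
      rw [Matrix.mul_smul, Matrix.add_mul, smul_add]
    have a4 : (N + J n) * (δ • X) = δ • ((N + J n) * X) := by
      rw [Matrix.mul_smul]
    rw [Matrix.mul_sub, Matrix.mul_add, Matrix.mul_sub, a1, a2, a3, a4, e1, e2, e3]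
    simp only [Matrix.smul_mul, Matrix.one_mul, add_smul, smul_add, smul_smul]
    rw [mul_comm s δ]
    abel
  have h0 := smul_cancel _ _ h' key
  rw [smul_sub, ← sub_eq_zero, ← h0]
  abel

theorem ofFn_toFn {n : ℕ} (R : ℤ[X]) (h : R.degree < n) : Polynomial.ofFn n (Polynomial.toFn n R) = R := by
  ext i
  by_cases hi : i < n
  · rw [Polynomial.ofFn_coeff_eq_val_of_lt _ hi]
    rfl
  · push Not at hi
    rw [Polynomial.ofFn_coeff_eq_zero_of_ge _ hi]
    exact (Polynomial.coeff_eq_zero_of_degree_lt (lt_of_lt_of_le h (by exact_mod_cast hi))).symm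

theorem poly_factor {n : ℕ} (B : Matrix (Fin n) (Fin n) ℤ) (hW : (walk B).det ≠ 0)
    (η β : Fin n → ℤ) (c K : ℤ)
    (h : B *ᵥ (walk B *ᵥ η) = c • (walk B *ᵥ η) + K • (walk B *ᵥ β)) :
    ∃ g : ℤ, (X - C c) * Polynomial.ofFn n η - C K * Polynomial.ofFn n β = C g * B.charpoly := by
  set P : ℤ[X] := (X - C c) * Polynomial.ofFn n η - C K * Polynomial.ofFn n β with hP
  have hP0 : (aeval B P) *ᵥ 1 = 0 := by
    rw [hP, map_sub, map_mul, map_sub, aeval_X, aeval_C, map_mul, aeval_C, Matrix.sub_mulVec,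
      ← Matrix.mulVec_mulVec, ← Matrix.mulVec_mulVec, ← walk_mulVec, ← walk_mulVec,
      Matrix.sub_mulVec, h, Algebra.algebraMap_eq_smul_one, Algebra.algebraMap_eq_smul_one,
      Matrix.smul_mulVec, Matrix.smul_mulVec, Matrix.one_mulVec, Matrix.one_mulVec]
    abel
  have hdeg : P.degree ≤ n := by
    rw [hP]
    refine (degree_sub_le _ _).trans (max_le ?_ ?_)
    · have h1 : (Polynomial.ofFn n η).degree < n := Polynomial.ofFn_degree_lt η
      by_cases h0 : Polynomial.ofFn n η = 0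
      · rw [h0, mul_zero, degree_zero]; exact bot_le
      · rw [degree_mul, degree_X_sub_C, degree_eq_natDegree h0] at *
        have h2 : (Polynomial.ofFn n η).natDegree < n := by exact_mod_cast h1
        have h3 : 1 + (Polynomial.ofFn n η).natDegree ≤ n := by omega
        exact_mod_cast h3
    · rw [← smul_eq_C_mul]
      exact (degree_smul_le _ _).trans (Polynomial.ofFn_degree_lt β).le
  refine ⟨P.coeff n, ?_⟩
  set R : ℤ[X] := P - C (P.coeff n) * B.charpoly with hR
  have hmon := B.charpoly_monic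
  have hdR : R.degree < n := by
    have hcd : B.charpoly.degree = n := by
      rw [Matrix.charpoly_degree_eq_dim, Fintype.card_fin]
    have hnd : B.charpoly.natDegree = n := natDegree_eq_of_degree_eq_some hcd
    refine lt_of_le_of_ne ((degree_sub_le _ _).trans (max_le hdeg ?_)) ?_
    · rw [← smul_eq_C_mul]
      exact (degree_smul_le _ _).trans hcd.le
    · intro hbad
      have h4 : R.coeff n ≠ 0 := by
        have h5 : R ≠ 0 := by
          intro h6
          rw [h6, degree_zero] at hbad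
          exact WithBot.bot_ne_coe hbad
        have h6 : R.natDegree = n := natDegree_eq_of_degree_eq_some hbad
        rw [← h6]
        exact leadingCoeff_ne_zero.2 h5
      apply h4
      rw [hR, coeff_sub, coeff_C_mul]
      have h7 : B.charpoly.coeff n = 1 := by
        have h8 : B.charpoly.coeff B.charpoly.natDegree = 1 := hmon
        rwa [hnd] at h8
      rw [h7, mul_one, sub_self]
  have hR0 : walk B *ᵥ (Polynomial.toFn n R) = 0 := by
    rw [walk_mulVec, ofFn_toFn R hdR, hR, map_sub, map_mul, Matrix.aeval_self_charpoly, mul_zero,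
      sub_zero, hP0]
  have hz := Matrix.eq_zero_of_mulVec_eq_zero hW hR0
  have hRz : R = 0 := by
    rw [← ofFn_toFn R hdR, hz, map_zero]
  rw [hR] at hRz
  exact sub_eq_zero.1 hRz

/-- The key divisibility, for a symmetric matrix with nonsingular walk matrix, under the extra
assumption that two determinants do not vanish. -/
theorem core_aux {n : ℕ} (B : Matrix (Fin n) (Fin n) ℤ) (hB : B.IsSymm)
    (hW : (walk B).det ≠ 0) (η β : Fin n → ℤ) (c K : ℤ)
    (h : B *ᵥ (walk B *ᵥ η) = c • (walk B *ᵥ η) + K • (walk B *ᵥ β))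
    (he : K ∣ ∑ i, (walk B *ᵥ η) i)
    (hd1 : (Matrix.scalar (Fin n) c - B).det ≠ 0)
    (hd2 : (Matrix.scalar (Fin n) c - B + J n).det ≠ 0) (i k : Fin n) :
    K ∣ (walk B *ᵥ η) i * (walk B *ᵥ η) k := by
  obtain ⟨g, hg⟩ := poly_factor B hW η β c K h
  set φ := B.charpoly with hφ
  set F := Polynomial.ofFn n η with hF
  set b := Polynomial.ofFn n β with hb
  set N := Matrix.scalar (Fin n) c - B with hN
  have hev : φ.eval c = N.det := Matrix.eval_charpoly B c
  -- divide by `X - c`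
  have e1 : (X - C c) * (φ /ₘ (X - C c)) = φ - C (φ.eval c) := by
    have := modByMonic_add_div φ (X - C c)
    rw [modByMonic_X_sub_C_eq_C_eval] at this
    rw [eq_sub_iff_add_eq, add_comm]
    exact this
  have e2 : (X - C c) * (b /ₘ (X - C c)) = b - C (b.eval c) := by
    have := modByMonic_add_div b (X - C c)
    rw [modByMonic_X_sub_C_eq_C_eval] at this
    rw [eq_sub_iff_add_eq, add_comm]
    exact this
  set q := φ /ₘ (X - C c) with hq
  set r := b /ₘ (X - C c) with hr
  have e3 : g * φ.eval c = - (K * b.eval c) := by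
    have := congrArg (Polynomial.eval c) hg
    rw [eval_sub, eval_mul, eval_sub, eval_X, eval_C, sub_self, zero_mul, eval_mul, eval_C,
      eval_mul, eval_C] at this
    linarith
  have hFq : F = C g * q + C K * r := by
    have h1 : (X - C c) * (F - (C g * q + C K * r)) = 0 := by
      have h2 : (X - C c) * (F - (C g * q + C K * r)) =
          ((X - C c) * F) - C g * ((X - C c) * q) - C K * ((X - C c) * r) := by ring
      rw [h2, e1, e2]
      have h3 : (X - C c) * F = C g * φ + C K * b := by rw [← hg]; ring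
      rw [h3]
      have h4 : C g * C (φ.eval c) + C K * C (b.eval c) = 0 := by
        rw [← C_mul, ← C_mul, ← C_add, e3]
        simp
      linear_combination h4
    exact sub_eq_zero.1 ((mul_eq_zero.1 h1).resolve_left (X_sub_C_ne_zero c))
  -- the adjugate
  have hadj : aeval B q = N.adjugate := by
    have h1 : N * aeval B q = N.det • 1 := by
      have := congrArg (aeval B) e1
      rw [map_mul, map_sub, map_sub, aeval_X, aeval_C, hφ, Matrix.aeval_self_charpoly, aeval_C,
        zero_sub, Algebra.algebraMap_eq_smul_one, Algebra.algebraMap_eq_smul_one, ← hφ, hev] at this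
      have h2 : N = -(B - c • 1) := by
        rw [hN, neg_sub, Matrix.smul_one_eq_diagonal]
        rfl
      rw [h2, Matrix.neg_mul, this, neg_neg, ← h2]
    have h3 : N * (aeval B q - N.adjugate) = 0 := by
      rw [Matrix.mul_sub, h1, Matrix.mul_adjugate, sub_self]
    exact sub_eq_zero.1 (smul_cancel _ _ hd1 h3)
  set M := N.adjugate with hM
  have hNs : N.IsSymm := by
    rw [hN]
    refine Matrix.IsSymm.sub ?_ hB
    exact Matrix.isSymm_diagonal _
  have hMs : M.IsSymm := hNs.adjugate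
  set ν := walk B *ᵥ η with hν
  have hνe : ν = g • (M *ᵥ 1) + K • ((aeval B r) *ᵥ 1) := by
    rw [hν, walk_mulVec, ← hF, hFq, map_add, map_mul, map_mul, aeval_C, aeval_C, hadj,
      Algebra.algebraMap_eq_smul_one, Algebra.algebraMap_eq_smul_one, Matrix.smul_mul,
      Matrix.one_mul, Matrix.smul_mul, Matrix.one_mul, Matrix.add_mulVec, Matrix.smul_mulVec,
      Matrix.smul_mulVec]
  have hm : ∀ i, (M *ᵥ 1) i = ∑ j, M i j := fun i => by simp [Matrix.mulVec, dotProduct]
  have hs : K ∣ g * ∑ i, ∑ j, M i j := by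
    have h1 : ∑ i, ν i = g * ∑ i, ∑ j, M i j + K * ∑ i, ((aeval B r) *ᵥ 1) i := by
      rw [hνe]
      simp only [Pi.add_apply, Pi.smul_apply, smul_eq_mul, hm, Finset.sum_add_distrib,
        Finset.mul_sum]
    have h2 : g * ∑ i, ∑ j, M i j = ∑ i, ν i - K * ∑ i, ((aeval B r) *ᵥ 1) i := by
      rw [h1]; ring
    rw [h2]
    exact dvd_sub he (dvd_mul_right _ _)
  have hsh := congrFun (congrFun (sherman N hd1 hd2) i) k
  rw [← hM] at hsh
  have hMJM : (M * J n * M) i k = (M *ᵥ 1) i * (M *ᵥ 1) k := by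
    rw [Matrix.mul_apply, hm k, Finset.mul_sum]
    refine Finset.sum_congr rfl fun l _ => ?_
    rw [Matrix.mul_apply, hm i]
    simp only [J, Matrix.of_apply, mul_one]
    rw [hMs.apply]
  rw [Matrix.sub_apply, Matrix.smul_apply, hMJM, Matrix.smul_apply, smul_eq_mul, smul_eq_mul] at hsh
  have hgd : K ∣ g * N.det := by
    rw [← hev, e3]
    exact (dvd_mul_right _ _).neg_right
  have hmain : K ∣ (g * (M *ᵥ 1) i) * (g * (M *ᵥ 1) k) := by
    have h1 : (g * (M *ᵥ 1) i) * (g * (M *ᵥ 1) k) =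
        g * ((g * ∑ i, ∑ j, M i j) * M i k) -
          g * ((g * N.det) * ((N + J n).adjugate - M) i k) := by
      linear_combination (-g ^ 2) * hsh
    rw [h1]
    exact dvd_sub ((hs.mul_right _).mul_left _) ((hgd.mul_right _).mul_left _)
  rw [hνe]
  simp only [Pi.add_apply, Pi.smul_apply, smul_eq_mul]
  have h2 : (g * (M *ᵥ 1) i + K * ((aeval B r) *ᵥ 1) i) * (g * (M *ᵥ 1) k + K * ((aeval B r) *ᵥ 1) k)
      = (g * (M *ᵥ 1) i) * (g * (M *ᵥ 1) k) + K * (((aeval B r) *ᵥ 1) i *
        (g * (M *ᵥ 1) k + K * ((aeval B r) *ᵥ 1) k) + (g * (M *ᵥ 1) i) * ((aeval B r) *ᵥ 1) k) := by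
    ring
  rw [h2]
  exact dvd_add hmain (dvd_mul_right _ _)

/-- The key divisibility: if `B` is symmetric with nonsingular walk matrix `W`, and `ν = W η`
satisfies `B ν = c ν + K W β` and `K ∣ ∑ ν`, then `K` divides all products `ν i * ν k`. -/
theorem core {n : ℕ} (B : Matrix (Fin n) (Fin n) ℤ) (hB : B.IsSymm)
    (hW : (walk B).det ≠ 0) (η β : Fin n → ℤ) (c K : ℤ) (hK : K ≠ 0)
    (h : B *ᵥ (walk B *ᵥ η) = c • (walk B *ᵥ η) + K • (walk B *ᵥ β))
    (he : K ∣ ∑ i, (walk B *ᵥ η) i) (i k : Fin n) :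
    K ∣ (walk B *ᵥ η) i * (walk B *ᵥ η) k := by
  obtain ⟨t, ht⟩ : ∃ t : ℤ, (B.charpoly * (B - J n).charpoly).eval (c + K * t) ≠ 0 := by
    by_contra hcon
    push Not at hcon
    have h1 : (B.charpoly * (B - J n).charpoly).comp (C K * X + C c) = 0 := by
      apply Polynomial.funext
      intro t
      have h2 : (C K * X + C c : ℤ[X]).eval t = c + K * t := by
        simp [add_comm]
      rw [eval_comp, h2, eval_zero]
      exact hcon t
    rw [comp_eq_zero_iff] at h1
    rcases h1 with h1 | ⟨-, h1⟩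
    · exact ((B.charpoly_monic).mul (B - J n).charpoly_monic).ne_zero h1
    · have h2 := congrArg (fun p => coeff p 1) h1
      simp at h2
      exact hK h2
  rw [eval_mul, Matrix.eval_charpoly, Matrix.eval_charpoly] at ht
  have h1 := left_ne_zero_of_mul ht
  have h2 := right_ne_zero_of_mul ht
  refine core_aux B hB hW η (β - t • η) (c + K * t) K ?_ he h1 ?_ i k
  · rw [h, Matrix.mulVec_sub, Matrix.mulVec_smul, smul_sub, add_smul, smul_smul]
    abel
  · rw [sub_add]
    exact h2

theorem map_pow_conj {n : ℕ} (A B : Matrix (Fin n) (Fin n) ℤ) (Q : Matrix (Fin n) (Fin n) ℚ)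
    (hQ1 : Q * Qᵀ = 1) (hQ2 : Qᵀ * Q = 1)
    (hAB : Qᵀ * A.map (Int.cast : ℤ → ℚ) * Q = B.map (Int.cast : ℤ → ℚ)) (j : ℕ) :
    Qᵀ * (A ^ j).map (Int.cast : ℤ → ℚ) * Q = (B ^ j).map (Int.cast : ℤ → ℚ) := by
  have hm : ∀ M N : Matrix (Fin n) (Fin n) ℤ, (M * N).map (Int.cast : ℤ → ℚ) =
      M.map (Int.cast : ℤ → ℚ) * N.map (Int.cast : ℤ → ℚ) := fun M N =>
    Matrix.map_mul (f := Int.castRingHom ℚ)
  induction j with
  | zero =>
    rw [pow_zero, pow_zero]
    have h1 : (1 : Matrix (Fin n) (Fin n) ℤ).map (Int.cast : ℤ → ℚ) = 1 :=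
      Matrix.map_one _ Int.cast_zero Int.cast_one
    rw [h1, Matrix.mul_one, hQ2]
  | succ j ih =>
    rw [pow_succ, pow_succ, hm, hm, ← ih, ← hAB]
    calc Qᵀ * ((A ^ j).map (Int.cast : ℤ → ℚ) * A.map (Int.cast : ℤ → ℚ)) * Q
        = Qᵀ * (A ^ j).map (Int.cast : ℤ → ℚ) * 1 * A.map (Int.cast : ℤ → ℚ) * Q := by
          simp only [Matrix.mul_assoc, Matrix.one_mul]
      _ = _ := by
          rw [← hQ1]
          simp only [Matrix.mul_assoc]

theorem walk_conj {n : ℕ} (A B : Matrix (Fin n) (Fin n) ℤ) (Q : Matrix (Fin n) (Fin n) ℚ)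
    (hQ1 : Q * Qᵀ = 1) (hQ2 : Qᵀ * Q = 1) (hQe : Q *ᵥ 1 = 1)
    (hAB : Qᵀ * A.map (Int.cast : ℤ → ℚ) * Q = B.map (Int.cast : ℤ → ℚ)) :
    (walk B).map (Int.cast : ℤ → ℚ) = Qᵀ * (walk A).map (Int.cast : ℤ → ℚ) := by
  have hc : ∀ (M : Matrix (Fin n) (Fin n) ℤ) (i : Fin n),
      (((M *ᵥ 1) i : ℤ) : ℚ) = (M.map (Int.cast : ℤ → ℚ) *ᵥ 1) i := by
    intro M i
    simp [Matrix.mulVec, dotProduct]
  ext i j
  rw [Matrix.map_apply, walk, Matrix.of_apply, hc, ← map_pow_conj A B Q hQ1 hQ2 hAB,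
    ← Matrix.mulVec_mulVec, hQe, ← Matrix.mulVec_mulVec]
  simp only [Matrix.mulVec, Matrix.mul_apply, dotProduct, walk, Matrix.map_apply, Matrix.of_apply]
  refine Finset.sum_congr rfl fun k _ => ?_
  congr 1
  simp

end Q41.Walk
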