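import Pool.Agent.Q41.Walk.Main

open Matrix

namespace Q41.Walk

theorem dvd_of_sq_dvd {a m f : ℕ} (hf : Squarefree f) (hm : 0 < m) (h : a ^ 2 ∣ m ^ 2 * f) :
    a ∣ m := by
  obtain ⟨g, a', m', hg, hc, ha, hm'⟩ : ∃ g a' m' : ℕ, 0 < g ∧ Nat.Coprime a' m' ∧
      a = a' * g ∧ m = m' * g := by
    have hg : 0 < Nat.gcd a m := Nat.gcd_pos_of_pos_right _ hm
    obtain ⟨a', m', hc, ha, hm'⟩ := Nat.exists_coprime a m
    exact ⟨Nat.gcd a m, a', m', hg, hc, ha, hm'⟩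
  subst ha hm'
  have h1 : a' ^ 2 ∣ m' ^ 2 * f := by
    have h2 : (a' ^ 2) * g ^ 2 ∣ (m' ^ 2 * f) * g ^ 2 := by
      have h3 : (a' * g) ^ 2 = a' ^ 2 * g ^ 2 := by ring
      have h4 : (m' * g) ^ 2 * f = (m' ^ 2 * f) * g ^ 2 := by ring
      rwa [h3, h4] at h
    exact Nat.dvd_of_mul_dvd_mul_right (by positivity) h2
  have h2 : a' ^ 2 ∣ f := (Nat.Coprime.pow 2 2 hc).dvd_of_dvd_mul_left h1
  have h3 : IsUnit a' := hf a' (by rwa [← sq])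
  rw [Nat.isUnit_iff] at h3
  subst h3
  simp

theorem int_mul_of_sq {Δ m f : ℕ} (hm : 0 < m) (hf : Squarefree f) (hΔ : m ^ 2 * f = Δ) (x : ℚ)
    (z : ℤ) (h : (Δ : ℚ) * x ^ 2 = z) : ∃ w : ℤ, (m : ℚ) * x = w := by
  have hden : (x.den : ℚ) ≠ 0 := by exact_mod_cast x.den_nz
  have hx : x = x.num / x.den := (Rat.num_div_den x).symm
  have h1 : (Δ : ℤ) * x.num ^ 2 = z * (x.den : ℤ) ^ 2 := by
    have h2 : (Δ : ℚ) * (x.num : ℚ) ^ 2 = z * (x.den : ℚ) ^ 2 := by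
      rw [← h]
      have h3 : (x.num : ℚ) = x * x.den := by
        exact (Rat.mul_den_eq_num x).symm
      rw [h3]
      ring
    exact_mod_cast h2
  have h2 : x.den ^ 2 ∣ Δ := by
    have h3 : ((x.den : ℤ)) ^ 2 ∣ (Δ : ℤ) * x.num ^ 2 := ⟨z, by rw [h1]; ring⟩
    have h4 : x.den ^ 2 ∣ Δ * x.num.natAbs ^ 2 := by
      have := Int.natAbs_dvd_natAbs.2 h3
      simpa [Int.natAbs_mul, Int.natAbs_pow] using this
    have h5 : Nat.Coprime (x.den ^ 2) (x.num.natAbs ^ 2) := Nat.Coprime.pow 2 2 x.reduced.symm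
    exact h5.dvd_of_dvd_mul_right h4
  rw [← hΔ] at h2
  obtain ⟨t, ht⟩ := dvd_of_sq_dvd hf hm h2
  refine ⟨t * x.num, ?_⟩
  have h3 : (x.num : ℚ) = x * x.den := (Rat.mul_den_eq_num x).symm
  rw [ht]
  push_cast
  rw [h3]
  ring

end Q41.Walk
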