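import Pool.Agent.Q41.Walk.Core

open Matrix Polynomial

namespace Q41.Walk

theorem mapI {n : ℕ} (M N : Matrix (Fin n) (Fin n) ℤ) : (M * N).map (Int.cast : ℤ → ℚ) =
      M.map (Int.cast : ℤ → ℚ) * N.map (Int.cast : ℤ → ℚ) :=
  Matrix.map_mul (f := Int.castRingHom ℚ)

theorem mapV {n : ℕ} (M : Matrix (Fin n) (Fin n) ℤ) (v : Fin n → ℤ) :
    (fun i => (((M *ᵥ v) i : ℤ) : ℚ)) = M.map (Int.cast : ℤ → ℚ) *ᵥ (fun i => (v i : ℚ)) := by
  ext i
  simp [Matrix.mulVec, dotProduct]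

theorem entry {n : ℕ} (A B : Matrix (Fin n) (Fin n) ℤ) (Q : Matrix (Fin n) (Fin n) ℚ)
    (hBs : B.IsSymm) (hQ1 : Q * Qᵀ = 1) (hQ2 : Qᵀ * Q = 1) (hQe : Q *ᵥ 1 = 1)
    (hAB : Qᵀ * A.map (Int.cast : ℤ → ℚ) * Q = B.map (Int.cast : ℤ → ℚ))
    (hW : (walk A).det ≠ 0) (U V : Matrix (Fin n) (Fin n) ℤ) (hU : IsUnit U.det)
    (d : Fin n → ℕ) (hd : U * walk A * V = Matrix.diagonal (fun i => (d i : ℤ)))
    (a b : Fin n) (hb : 0 < d b) (hda : ∀ l, l ≠ b → d l ∣ d a) (hab : d a ∣ d b) (i j : Fin n) :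
    ∃ z : ℤ, ((d a : ℚ) * (d b : ℚ)) * (Q i j) ^ 2 = z := by
  obtain ⟨K, hK⟩ := hab
  have hK0 : K ≠ 0 := by
    rintro rfl
    omega
  set P : Matrix (Fin n) (Fin n) ℤ := U⁻¹ with hP
  have hPU : P * U = 1 := Matrix.nonsing_inv_mul U hU
  have hWV : walk A * V = P * Matrix.diagonal (fun i => (d i : ℤ)) := by
    rw [← hd, ← Matrix.mul_assoc, ← Matrix.mul_assoc, hPU, Matrix.one_mul]
  set η : Fin n → ℤ := fun l => V l b with hη
  have hWη : walk A *ᵥ η = (d b : ℤ) • (fun l => P l b) := by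
    ext l
    have := congrFun (congrFun hWV l) b
    rw [Matrix.mul_diagonal] at this
    rw [Pi.smul_apply, smul_eq_mul, mul_comm, ← this]
    rfl
  obtain ⟨ac, hPac⟩ : ∃ ac : Fin n → ℤ, P *ᵥ ac = A *ᵥ (fun l => P l b) :=
    ⟨U *ᵥ (A *ᵥ (fun l => P l b)), by rw [Matrix.mulVec_mulVec, hPU, Matrix.one_mulVec]⟩
  choose m hm using hda
  obtain ⟨β, hWβ⟩ : ∃ β : Fin n → ℤ,
      walk A *ᵥ β = P *ᵥ (fun l => if l = b then 0 else ac l * (d a : ℤ)) := by
    refine ⟨V *ᵥ (fun l => if h : l = b then 0 else ac l * (m l h : ℤ)), ?_⟩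
    rw [Matrix.mulVec_mulVec, hWV, ← Matrix.mulVec_mulVec]
    congr 1
    ext l
    rw [Matrix.mulVec_diagonal]
    by_cases hl : l = b
    · simp [hl]
    · simp only [hl, dif_neg, if_neg, not_false_eq_true]
      rw [hm l hl]
      push_cast
      ring
  have hmain : A *ᵥ (walk A *ᵥ η) = (ac b) • (walk A *ᵥ η) + (K : ℤ) • (walk A *ᵥ β) := by
    have h1 : A *ᵥ (walk A *ᵥ η) = P *ᵥ ((d b : ℤ) • ac) := by
      rw [hWη, Matrix.mulVec_smul, Matrix.mulVec_smul, hPac]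
    have h2 : (fun l => P l b) = P *ᵥ (Pi.single b (1 : ℤ)) := by
      ext l
      simp
    rw [h1, hWβ, hWη, h2, ← Matrix.mulVec_smul, ← Matrix.mulVec_smul, ← Matrix.mulVec_smul,
      ← Matrix.mulVec_add]
    congr 1
    ext l
    simp only [Pi.smul_apply, Pi.add_apply, smul_eq_mul]
    by_cases hl : l = b
    · subst hl
      simp
      ring
    · simp only [hl, if_neg, not_false_eq_true, Pi.single_eq_of_ne hl]
      rw [hK]
      push_cast
      ring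
  -- transport to `B`
  have hconj := walk_conj A B Q hQ1 hQ2 hQe hAB
  have hWB : (walk B).det ≠ 0 := by
    intro h0
    have h1 : ((walk B).map (Int.cast : ℤ → ℚ)).det = 0 := by
      have : ((walk B).map (Int.cast : ℤ → ℚ)).det = (((walk B).det : ℤ) : ℚ) :=
        ((Int.castRingHom ℚ).map_det (walk B)).symm
      rw [this, h0, Int.cast_zero]
    have h2 : ((walk A).map (Int.cast : ℤ → ℚ)).det = (((walk A).det : ℤ) : ℚ) :=
        ((Int.castRingHom ℚ).map_det (walk A)).symm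
    rw [hconj, Matrix.det_mul, h2, mul_eq_zero] at h1
    rcases h1 with h1 | h1
    · have h3 := congrArg Matrix.det hQ2
      rw [Matrix.det_mul, h1, zero_mul, Matrix.det_one] at h3
      exact zero_ne_one h3
    · exact hW (by exact_mod_cast h1)
  have hBmain : B *ᵥ (walk B *ᵥ η) = (ac b) • (walk B *ᵥ η) + (K : ℤ) • (walk B *ᵥ β) := by
    have hinj : Function.Injective (fun (v : Fin n → ℤ) (i : Fin n) => ((v i : ℤ) : ℚ)) := by
      intro v w hvw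
      ext i
      have := congrFun hvw i
      simpa using this
    apply hinj
    have h1 := congrArg (fun (v : Fin n → ℤ) (i : Fin n) => ((v i : ℤ) : ℚ)) hmain
    simp only [Pi.add_apply, Pi.smul_apply, smul_eq_mul, Int.cast_add, Int.cast_mul] at h1 ⊢
    have f1 : (fun i => ((((walk B *ᵥ η) i : ℤ)) : ℚ)) =
        Qᵀ *ᵥ (fun i => ((((walk A *ᵥ η) i : ℤ)) : ℚ)) := by
      rw [mapV, mapV, hconj, Matrix.mulVec_mulVec]
    have f2 : (fun i => ((((walk B *ᵥ β) i : ℤ)) : ℚ)) =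
        Qᵀ *ᵥ (fun i => ((((walk A *ᵥ β) i : ℤ)) : ℚ)) := by
      rw [mapV, mapV, hconj, Matrix.mulVec_mulVec]
    rw [mapV, f1, ← hAB]
    have f3 : (Qᵀ * A.map (Int.cast : ℤ → ℚ) * Q) *ᵥ
        (Qᵀ *ᵥ (fun i => (((walk A *ᵥ η) i : ℤ) : ℚ))) =
        Qᵀ *ᵥ (A.map (Int.cast : ℤ → ℚ) *ᵥ (fun i => (((walk A *ᵥ η) i : ℤ) : ℚ))) := by
      rw [Matrix.mulVec_mulVec, Matrix.mulVec_mulVec, Matrix.mul_assoc, hQ1, Matrix.mul_one]
    rw [f3, ← mapV, h1]
    have f4 : (fun i => ((ac b : ℤ) : ℚ) * ((((walk A *ᵥ η) i : ℤ)) : ℚ) +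
        ((K : ℤ) : ℚ) * ((((walk A *ᵥ β) i : ℤ)) : ℚ)) =
        ((ac b : ℤ) : ℚ) • (fun i => ((((walk A *ᵥ η) i : ℤ)) : ℚ)) +
        ((K : ℤ) : ℚ) • (fun i => ((((walk A *ᵥ β) i : ℤ)) : ℚ)) := rfl
    rw [f4, Matrix.mulVec_add, Matrix.mulVec_smul, Matrix.mulVec_smul, ← f1, ← f2]
    rfl
  have he : (K : ℤ) ∣ ∑ i, (walk B *ᵥ η) i := by
    have h1 : ∑ i, (walk B *ᵥ η) i = (d b : ℤ) * ∑ l, P l b := by
      have h2 : ((∑ i, (walk B *ᵥ η) i : ℤ) : ℚ) = (((d b : ℤ) * ∑ l, P l b : ℤ) : ℚ) := by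
        have f1 : (fun i => ((((walk B *ᵥ η) i : ℤ)) : ℚ)) =
            Qᵀ *ᵥ (fun i => ((((walk A *ᵥ η) i : ℤ)) : ℚ)) := by
          rw [mapV, mapV, hconj, Matrix.mulVec_mulVec]
        have f2 : ∑ i, (((walk B *ᵥ η) i : ℤ) : ℚ) =
            (1 : Fin n → ℚ) ⬝ᵥ (fun i => ((((walk B *ᵥ η) i : ℤ)) : ℚ)) := by
          simp [dotProduct]
        rw [Int.cast_sum, f2, f1, Matrix.dotProduct_mulVec, Matrix.vecMul_transpose, hQe, hWη]
        simp [dotProduct, Finset.mul_sum]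
      exact_mod_cast h2
    rw [h1, hK]
    push_cast
    exact ⟨(d a : ℤ) * ∑ l, P l b, by ring⟩
  have hkey := core B hBs hWB η β (ac b) (K : ℤ) (by exact_mod_cast hK0) hBmain he
  -- the entries of `Qᵀ`
  have hY : (walk B * V).map (Int.cast : ℤ → ℚ) =
      Qᵀ * P.map (Int.cast : ℤ → ℚ) * Matrix.diagonal (fun i => (d i : ℚ)) := by
    rw [mapI, hconj, Matrix.mul_assoc, ← mapI, hWV, mapI, Matrix.mul_assoc]
    congr 2
    ext x y
    by_cases hxy : x = y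
    · subst hxy; simp
    · simp [Matrix.diagonal_apply_ne _ hxy]
  set Z := Qᵀ * P.map (Int.cast : ℤ → ℚ) with hZ
  have hYe : ∀ x y, (((walk B * V) x y : ℤ) : ℚ) = Z x y * d y := by
    intro x y
    have := congrFun (congrFun hY x) y
    rwa [Matrix.mul_diagonal] at this
  have hZU : Z * U.map (Int.cast : ℤ → ℚ) = Qᵀ := by
    rw [hZ, Matrix.mul_assoc, ← mapI, hPU]
    have h1 : (1 : Matrix (Fin n) (Fin n) ℤ).map (Int.cast : ℤ → ℚ) = 1 :=
      Matrix.map_one _ Int.cast_zero Int.cast_one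
    rw [h1, Matrix.mul_one]
  obtain ⟨w, hw⟩ := hkey j j
  have hν : (walk B *ᵥ η) j = (walk B * V) j b := rfl
  rw [hν] at hw
  set ν := (walk B * V) j b with hνd
  set z : ℤ := ∑ l, (if h : l = b then 0 else (walk B * V) j l * (m l h : ℤ) * U l i) with hz
  have hx : (K : ℚ) * ((d a : ℚ) * Q i j) = K * z + ν * U b i := by
    have h1 : Q i j = ∑ l, Z j l * (U l i : ℚ) := by
      have := congrFun (congrFun hZU j) i
      rw [Matrix.transpose_apply, Matrix.mul_apply] at this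
      exact this.symm
    rw [h1, hz, Int.cast_sum, Finset.mul_sum, Finset.mul_sum, Finset.mul_sum]
    have h2 : (ν : ℚ) * U b i = ∑ l, if l = b then (ν : ℚ) * U b i else 0 := by
      simp
    rw [h2, ← Finset.sum_add_distrib]
    refine Finset.sum_congr rfl fun l _ => ?_
    by_cases hl : l = b
    · subst hl
      rw [if_pos rfl, dif_pos rfl, hνd, hYe, hK]
      push_cast
      ring
    · rw [if_neg hl, dif_neg hl]
      push_cast
      rw [hYe, hm l hl]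
      push_cast
      ring
  refine ⟨(K : ℤ) * z ^ 2 + 2 * z * ν * U b i + w * (U b i) ^ 2, ?_⟩
  have hKq : (K : ℚ) ≠ 0 := by exact_mod_cast hK0
  have hw' : (ν : ℚ) * ν = K * w := by exact_mod_cast hw
  have hfin : (K : ℚ) * (((d a : ℚ) * (d b : ℚ)) * (Q i j) ^ 2) =
      K * ((K : ℚ) * z ^ 2 + 2 * z * ν * U b i + w * (U b i) ^ 2) := by
    have h1 : (K : ℚ) * (((d a : ℚ) * (d b : ℚ)) * (Q i j) ^ 2) =
        ((K : ℚ) * ((d a : ℚ) * Q i j)) ^ 2 := by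
      rw [hK]
      push_cast
      ring
    rw [h1, hx]
    linear_combination ((U b i : ℚ)) ^ 2 * hw'
  have := mul_left_cancel₀ hKq hfin
  rw [this]
  push_cast
  ring

end Q41.Walk
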